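import Pool.Agent.Y271.RO.Stm

/-!
# Project RO: the contradiction in case A
-/

set_option autoImplicit false

namespace Pool.Agent.Y812.RO.Contra

open MeasureTheory Set Metric Filter Topology

theorem main : Pool.Agent.Y271.RO.S_CON := by
  intro G a b ρ hρ hb hG hae
  have hopen := isOpen_ball (x := a) (ε := ρ)
  have ha : a ∈ ball a ρ := mem_ball_self hρ
  have heq : EqOn (fun z => ‖G z‖ ^ 2) (fun z => ‖z - a‖ * ‖z - b‖) (ball a ρ) :=
    Measure.eqOn_open_of_ae_eq hae hopen (hG.continuousOn.norm.pow 2)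
      (Continuous.continuousOn (by fun_prop))
  have hGa : G a = 0 := by
    have := heq ha
    simpa using this
  have hd := (hG.differentiableAt (hopen.mem_nhds ha)).isBigO_sub
  obtain ⟨L, hL⟩ := hd.bound
  have h1 : ∀ᶠ z in 𝓝[≠] a, ‖z - b‖ ≤ L ^ 2 * ‖z - a‖ := by
    filter_upwards [mem_nhdsWithin_of_mem_nhds hL,
      mem_nhdsWithin_of_mem_nhds (hopen.mem_nhds ha), self_mem_nhdsWithin] with z hz hzb hne
    rw [hGa, sub_zero] at hz
    have h2 : ‖G z‖ ^ 2 = ‖z - a‖ * ‖z - b‖ := heq hzb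
    have h3 : 0 < ‖z - a‖ := norm_pos_iff.2 (sub_ne_zero.2 hne)
    have h4 : ‖G z‖ ^ 2 ≤ (L * ‖z - a‖) ^ 2 := by gcongr
    rw [h2] at h4
    have h5 : ‖z - a‖ * ‖z - b‖ ≤ ‖z - a‖ * (L ^ 2 * ‖z - a‖) := by
      calc ‖z - a‖ * ‖z - b‖ ≤ (L * ‖z - a‖) ^ 2 := h4
        _ = ‖z - a‖ * (L ^ 2 * ‖z - a‖) := by ring
    exact le_of_mul_le_mul_left h5 h3
  have h2 : Tendsto (fun z => ‖z - b‖) (𝓝[≠] a) (𝓝 ‖a - b‖) :=
    ((continuous_id.sub continuous_const).norm.tendsto a).mono_left nhdsWithin_le_nhds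
  have h3 : Tendsto (fun z => L ^ 2 * ‖z - a‖) (𝓝[≠] a) (𝓝 (L ^ 2 * ‖a - a‖)) :=
    ((continuous_const.mul (continuous_id.sub continuous_const).norm).tendsto a).mono_left
      nhdsWithin_le_nhds
  have h4 := le_of_tendsto_of_tendsto h2 h3 h1
  rw [sub_self, norm_zero, mul_zero, norm_sub_rev] at h4
  linarith

end Pool.Agent.Y812.RO.Contra
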