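import Pool.Agent.Y271.RO.Stm

/-!
# Project RO: the convolutions with the kernel converge in `L¹`
-/

set_option autoImplicit false

namespace Pool.Agent.Y812.RO.PCA

open MeasureTheory Set Metric Filter Topology
open scoped ENNReal NNReal
open Pool.Agent.Y271.RO

lemma pk_nonneg (ε : ℝ) (w : ℂ) : 0 ≤ pk ε w := by
  unfold pk
  positivity

lemma pk_cont {ε : ℝ} (hε : 0 < ε) : Continuous (pk ε) := by
  unfold pk
  refine continuous_const.div (by fun_prop) fun w => ?_
  positivity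

lemma pk_le {ε : ℝ} (hε : 0 < ε) (w : ℂ) : pk ε w ≤ 1 / (Real.pi * ε ^ 2) := by
  unfold pk
  rw [div_le_div_iff₀ (by positivity) (by positivity)]
  have h1 : (ε ^ 2) ^ 2 ≤ (‖w‖ ^ 2 + ε ^ 2) ^ 2 := by
    gcongr
    nlinarith [sq_nonneg ‖w‖]
  have := mul_le_mul_of_nonneg_left h1 Real.pi_pos.le
  nlinarith

lemma pk_one (w : ℂ) : pk 1 w = 1 / (Real.pi * (‖w‖ ^ 2 + 1) ^ 2) := by
  unfold pk
  norm_num

lemma pk_scale {ε : ℝ} (hε : 0 < ε) (w : ℂ) : pk ε (ε • w) = (ε ^ 2)⁻¹ * pk 1 w := by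
  unfold pk
  rw [norm_smul, Real.norm_of_nonneg hε.le]
  have h1 : (ε * ‖w‖) ^ 2 + ε ^ 2 = ε ^ 2 * (‖w‖ ^ 2 + 1) := by ring
  rw [h1]
  have h2 : 0 < ‖w‖ ^ 2 + 1 := by positivity
  field_simp

lemma rad_int : ∫ y in Ioi (0 : ℝ), y ^ (2 - 1) • (1 / (Real.pi * (y ^ 2 + 1) ^ 2)) =
    1 / (2 * Real.pi) := by
  have hd : ∀ x ∈ Ici (0 : ℝ), HasDerivAt (fun y : ℝ => -(1 / (2 * Real.pi)) * (y ^ 2 + 1)⁻¹)
      (x ^ (2 - 1) • (1 / (Real.pi * (x ^ 2 + 1) ^ 2))) x := by
    intro x _
    have h0 : x ^ 2 + 1 ≠ 0 := by positivity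
    have h1 : HasDerivAt (fun y : ℝ => y ^ 2 + 1) (2 * x) x := by
      simpa using (hasDerivAt_pow 2 x).add_const 1
    have h2 := (h1.inv h0).const_mul (-(1 / (2 * Real.pi)))
    refine h2.congr_deriv ?_
    rw [smul_eq_mul]
    have := Real.pi_ne_zero
    field_simp
    norm_num
  have ht : Tendsto (fun y : ℝ => -(1 / (2 * Real.pi)) * (y ^ 2 + 1)⁻¹) atTop (𝓝 0) := by
    have h1 : Tendsto (fun y : ℝ => y ^ 2 + 1) atTop atTop :=
      tendsto_atTop_add_const_right _ _ (tendsto_pow_atTop two_ne_zero)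
    have h2 := (tendsto_inv_atTop_zero.comp h1).const_mul (-(1 / (2 * Real.pi)))
    rw [mul_zero] at h2
    exact h2
  rw [integral_Ioi_of_hasDerivAt_of_nonneg' hd (fun x hx => ?_) ht]
  · norm_num
  · have : (0 : ℝ) < x := hx
    rw [smul_eq_mul]
    positivity

lemma pk_int_one : ∫ w : ℂ, pk 1 w = 1 := by
  have h1 : ∫ w : ℂ, pk 1 w = ∫ w : ℂ, (fun r : ℝ => 1 / (Real.pi * (r ^ 2 + 1) ^ 2)) ‖w‖ := by
    refine integral_congr_ae (Eventually.of_forall fun w => ?_)
    simp only [pk_one]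
  have h2 := integral_fun_norm_addHaar (volume : Measure ℂ)
    (fun r : ℝ => 1 / (Real.pi * (r ^ 2 + 1) ^ 2))
  rw [h1, h2, Complex.finrank_real_complex, rad_int, measureReal_def, Complex.volume_ball]
  have := Real.pi_ne_zero
  simp

lemma pk_integrable_one : Integrable (pk 1) := integrable_of_integral_eq_one pk_int_one

lemma pk_int {ε : ℝ} (hε : 0 < ε) : ∫ w : ℂ, pk ε w = 1 := by
  have h1 := Measure.integral_comp_smul (volume : Measure ℂ) (pk ε) ε
  simp only [pk_scale hε] at h1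
  rw [integral_const_mul, pk_int_one, Complex.finrank_real_complex, smul_eq_mul,
    abs_of_pos (by positivity)] at h1
  have h2 : (ε ^ 2)⁻¹ ≠ 0 := by positivity
  exact (mul_left_cancel₀ h2 h1).symm

lemma pk_integrable {ε : ℝ} (hε : 0 < ε) : Integrable (pk ε) :=
  integrable_of_integral_eq_one (pk_int hε)

lemma pw_cont {h : ℂ → ℝ} (hi : Integrable h) {ε : ℝ} (hε : 0 < ε) : Continuous (pw h ε) := by
  unfold pw
  refine continuous_of_dominated (bound := fun z => ‖h z‖ * (1 / (Real.pi * ε ^ 2))) ?_ ?_ ?_ ?_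
  · intro w
    exact hi.1.mul ((pk_cont hε).comp (continuous_const.sub continuous_id)).aestronglyMeasurable
  · intro w
    refine Eventually.of_forall fun z => ?_
    rw [norm_mul, Real.norm_of_nonneg (pk_nonneg _ _)]
    exact mul_le_mul_of_nonneg_left (pk_le hε _) (norm_nonneg _)
  · exact hi.norm.mul_const _
  · refine Eventually.of_forall fun z => ?_
    exact continuous_const.mul ((pk_cont hε).comp (continuous_id.sub continuous_const))

/-- the modulus of continuity in `L¹` -/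
noncomputable def om (h : ℂ → ℝ) (y : ℂ) : ℝ≥0∞ := ∫⁻ z, ‖h (z - y) - h z‖ₑ

lemma om_cont {h : ℂ → ℝ} (hi : Integrable h) : Continuous (om h) := by
  have hmem : MemLp h 1 volume := memLp_one_iff_integrable.2 hi
  let g : C(ℂ, C(ℂ, ℂ)) :=
    (ContinuousMap.mk (fun a : ℂ × ℂ => a.2 - a.1) (by fun_prop)).curry
  have hgm : ∀ y, MeasurePreserving (g y) volume volume := fun y =>
    measurePreserving_sub_right volume y
  have hF : Continuous fun y => Lp.compMeasurePreserving (g y) (hgm y) (hmem.toLp h) :=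
    Continuous.compMeasurePreservingLp continuous_const g.continuous hgm (by simp)
  have h1 : om h = fun y => edist (Lp.compMeasurePreserving (g y) (hgm y) (hmem.toLp h))
      (hmem.toLp h) := by
    funext y
    rw [L1.edist_def]
    unfold om
    refine lintegral_congr_ae ?_
    have e1 : ⇑(Lp.compMeasurePreserving (g y) (hgm y) (hmem.toLp h)) =ᵐ[volume] h ∘ (g y) := by
      rw [Lp.toLp_compMeasurePreserving]
      exact MemLp.coeFn_toLp _
    filter_upwards [e1, hmem.coeFn_toLp] with z h2 h3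
    rw [h2, h3, edist_eq_enorm_sub]
    rfl
  rw [h1]
  exact hF.edist continuous_const

lemma om_zero (h : ℂ → ℝ) : om h 0 = 0 := by
  unfold om
  simp

lemma om_le {h : ℂ → ℝ} (hi : Integrable h) (y : ℂ) : om h y ≤ 2 * ∫⁻ z, ‖h z‖ₑ := by
  unfold om
  calc ∫⁻ z, ‖h (z - y) - h z‖ₑ ≤ ∫⁻ z, (‖h (z - y)‖ₑ + ‖h z‖ₑ) :=
        lintegral_mono fun z => enorm_sub_le
    _ = (∫⁻ z, ‖h (z - y)‖ₑ) + ∫⁻ z, ‖h z‖ₑ := lintegral_add_right' _ hi.1.enorm
    _ = 2 * ∫⁻ z, ‖h z‖ₑ := by
        rw [lintegral_sub_right_eq_self (fun z => ‖h z‖ₑ) y, two_mul]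

lemma bound {h : ℂ → ℝ} (hm : StronglyMeasurable h) (hi : Integrable h) {ε : ℝ} (hε : 0 < ε) :
    ∫⁻ z, ‖pw h ε z - h z‖ₑ ≤ ∫⁻ y, ENNReal.ofReal (pk ε y) * om h y := by
  have h1 : ∀ z, pw h ε z - h z = ∫ y, (h (z - y) - h z) * pk ε y := by
    intro z
    have e1 : pw h ε z = ∫ y, h (z - y) * pk ε y := by
      have := integral_sub_left_eq_self (fun y => h (z - y) * pk ε y) volume z
      rw [← this]
      unfold pw
      refine integral_congr_ae (Eventually.of_forall fun x => ?_)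
      simp only [sub_sub_cancel]
    have e2 : h z = ∫ y, h z * pk ε y := by rw [integral_const_mul, pk_int hε, mul_one]
    have i1 : Integrable fun y => h (z - y) * pk ε y := by
      refine (hi.comp_sub_left z).mul_bdd (c := 1 / (Real.pi * ε ^ 2))
        (pk_cont hε).aestronglyMeasurable ?_
      refine Eventually.of_forall fun y => ?_
      rw [Real.norm_of_nonneg (pk_nonneg _ _)]
      exact pk_le hε y
    have i2 : Integrable fun y => h z * pk ε y := (pk_integrable hε).const_mul _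
    rw [e1]
    conv_lhs => rw [e2]
    rw [← integral_sub i1 i2]
    refine integral_congr_ae (Eventually.of_forall fun y => ?_)
    simp only
    ring
  calc ∫⁻ z, ‖pw h ε z - h z‖ₑ ≤ ∫⁻ z, ∫⁻ y, ‖h (z - y) - h z‖ₑ * ENNReal.ofReal (pk ε y) := by
        refine lintegral_mono fun z => ?_
        rw [h1 z]
        refine (enorm_integral_le_lintegral_enorm _).trans (le_of_eq ?_)
        refine lintegral_congr fun y => ?_
        rw [enorm_mul, Real.enorm_of_nonneg (pk_nonneg _ _)]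
    _ = ∫⁻ y, ∫⁻ z, ‖h (z - y) - h z‖ₑ * ENNReal.ofReal (pk ε y) := by
        refine lintegral_lintegral_swap ?_
        have m1 : Measurable fun p : ℂ × ℂ => ‖h (p.1 - p.2) - h p.1‖ₑ :=
          ((hm.measurable.comp (measurable_fst.sub measurable_snd)).sub
            (hm.measurable.comp measurable_fst)).enorm
        have m2 : Measurable fun p : ℂ × ℂ => ENNReal.ofReal (pk ε p.2) :=
          ((pk_cont hε).measurable.comp measurable_snd).ennreal_ofReal
        exact (m1.mul m2).aemeasurable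
    _ = ∫⁻ y, ENNReal.ofReal (pk ε y) * om h y := by
        refine lintegral_congr fun y => ?_
        rw [lintegral_mul_const _ (by
          exact ((hm.measurable.comp (measurable_id.sub_const y)).sub hm.measurable).enorm),
          mul_comm]
        rfl

lemma scale {h : ℂ → ℝ} (hi : Integrable h) {ε : ℝ} (hε : 0 < ε) :
    ∫⁻ y, ENNReal.ofReal (pk ε y) * om h y =
      ∫⁻ y, ENNReal.ofReal (pk 1 y) * om h (ε • y) := by
  have hF : Measurable fun y => ENNReal.ofReal (pk ε y) * om h y :=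
    (pk_cont hε).measurable.ennreal_ofReal.mul (om_cont hi).measurable
  have h1 : ∫⁻ y : ℂ, ENNReal.ofReal (pk ε (ε • y)) * om h (ε • y) =
      ENNReal.ofReal ((ε ^ 2)⁻¹) * ∫⁻ y, ENNReal.ofReal (pk ε y) * om h y := by
    rw [← lintegral_map (f := fun y => ENNReal.ofReal (pk ε y) * om h y) hF
      (measurable_const_smul ε), Measure.map_addHaar_smul _ hε.ne', lintegral_smul_measure,
      Complex.finrank_real_complex, abs_of_pos (by positivity), smul_eq_mul]
  have h2 : ∫⁻ y : ℂ, ENNReal.ofReal (pk ε (ε • y)) * om h (ε • y) =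
      ENNReal.ofReal ((ε ^ 2)⁻¹) * ∫⁻ y, ENNReal.ofReal (pk 1 y) * om h (ε • y) := by
    rw [← lintegral_const_mul' _ _ ENNReal.ofReal_ne_top]
    refine lintegral_congr fun y => ?_
    rw [pk_scale hε, ENNReal.ofReal_mul (by positivity), mul_assoc]
  rw [h2] at h1
  have h3 : ENNReal.ofReal ((ε ^ 2)⁻¹) ≠ 0 := by
    rw [Ne, ENNReal.ofReal_eq_zero, not_le]
    positivity
  exact ((ENNReal.mul_right_inj h3 ENNReal.ofReal_ne_top).1 h1).symm

lemma lim {h : ℂ → ℝ} (hi : Integrable h) :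
    Tendsto (fun n : ℕ => ∫⁻ y, ENNReal.ofReal (pk 1 y) * om h ((1 / ((n : ℝ) + 1)) • y)) atTop
      (𝓝 0) := by
  have h0 : ∫⁻ _ : ℂ, (0 : ℝ≥0∞) = 0 := by simp
  rw [← h0]
  refine tendsto_lintegral_of_dominated_convergence
    (fun y => ENNReal.ofReal (pk 1 y) * (2 * ∫⁻ z, ‖h z‖ₑ)) ?_ ?_ ?_ ?_
  · intro n
    exact (pk_cont one_pos).measurable.ennreal_ofReal.mul
      ((om_cont hi).measurable.comp (measurable_const_smul _))
  · intro n
    refine Eventually.of_forall fun y => ?_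
    dsimp only
    gcongr
    exact om_le hi _
  · rw [lintegral_mul_const' _ _ (ENNReal.mul_ne_top (by simp) hi.2.ne)]
    refine ENNReal.mul_ne_top ?_ (ENNReal.mul_ne_top (by simp) hi.2.ne)
    rw [← ofReal_integral_eq_lintegral_ofReal pk_integrable_one
      (Eventually.of_forall fun y => pk_nonneg _ _)]
    exact ENNReal.ofReal_ne_top
  · refine Eventually.of_forall fun y => ?_
    have h1 : Tendsto (fun n : ℕ => om h ((1 / ((n : ℝ) + 1)) • y)) atTop (𝓝 (om h 0)) := by
      refine ((om_cont hi).tendsto 0).comp ?_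
      have h2 : Tendsto (fun n : ℕ => (1 / ((n : ℝ) + 1)) • y) atTop (𝓝 ((0 : ℝ) • y)) :=
        tendsto_one_div_add_atTop_nhds_zero_nat.smul_const y
      rwa [zero_smul] at h2
    rw [om_zero] at h1
    have h3 := ENNReal.Tendsto.const_mul h1 (Or.inr (ENNReal.ofReal_ne_top (r := pk 1 y)))
    rwa [mul_zero] at h3

theorem main : S_PCA := by
  intro h hi hpos
  refine ⟨fun ε hε => ⟨pw_cont hi hε, fun w => ?_⟩, ?_⟩
  · exact integral_nonneg fun z => mul_nonneg (hpos z) (pk_nonneg _ _)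
  · obtain ⟨h', hm, hh⟩ := hi.1
    have hi' : Integrable h' := hi.congr hh
    have e1 : ∀ (ε : ℝ), pw h ε = pw h' ε := by
      intro ε
      funext w
      unfold pw
      refine integral_congr_ae ?_
      filter_upwards [hh] with z hz
      rw [hz]
    have e2 : ∀ n : ℕ, ∫⁻ z, ‖pw h (1 / (n + 1)) z - h z‖ₑ =
        ∫⁻ z, ‖pw h' (1 / (n + 1)) z - h' z‖ₑ := by
      intro n
      refine lintegral_congr_ae ?_
      filter_upwards [hh] with z hz
      rw [hz, e1]
    refine tendsto_of_tendsto_of_tendsto_of_le_of_le tendsto_const_nhds (lim hi')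
      (fun n => zero_le) fun n => ?_
    dsimp only
    rw [e2 n]
    refine (bound hm hi' (by positivity)).trans (le_of_eq ?_)
    exact scale hi' (by positivity)

end Pool.Agent.Y812.RO.PCA
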