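import Pool.Agent.Y271.RO.Stm

/-!
# Project RO: case 0, `f` vanishes on a set of positive area
-/

set_option autoImplicit false

namespace Pool.Agent.Y812.RO.ZERO

open MeasureTheory Set Metric Filter Topology
open scoped InnerProductSpace ENNReal NNReal ComplexConjugate ContDiff
open Pool.Agent.Y283.NK (ct IsMul HasHyp)
open Pool.Agent.Y271.RO

lemma bd_pow {g : ℂ → ℂ} {a : ℂ} {r : ℝ} (hr : 0 < r) (hg : Bd g a r 1) (k : ℕ) :
    Bd (fun z => (z - a) ^ k * g z) a r (r ^ k) := by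
  refine ⟨((measurable_id.sub_const a).pow_const k).mul hg.meas, by positivity, fun z => ?_,
    fun z hz => ?_⟩
  · by_cases hz : z ∈ ball a r
    · rw [norm_mul, norm_pow]
      have h1 : ‖z - a‖ ≤ r := (mem_ball_iff_norm.1 hz).le
      calc ‖z - a‖ ^ k * ‖g z‖ ≤ r ^ k * 1 := by
            gcongr
            exact hg.bd z
        _ = r ^ k := mul_one _
    · rw [hg.supp z hz, mul_zero, norm_zero]
      positivity
  · rw [hg.supp z hz, mul_zero]

theorem key (hHT : S_HT) (hCTG : S_CTG) (hMV : S_MV) {S : Type} [MeasurableSpace S]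
    {μ : Measure S} [SigmaFinite μ] {φ : S → ℂ} {N : Lp ℂ 2 μ →L[ℂ] Lp ℂ 2 μ} (hN : IsMul φ N)
    {u v : Lp ℂ 2 μ} {a : ℂ} {r : ℝ} (hr : 0 < r) (hch : ¬ HasCh (T1 N u v) a r) {g : ℂ → ℂ}
    (hg : Bd g a r 1) (hg0 : ∀ z, ff φ u v z ≠ 0 → g z = 0) (x : Lp ℂ 2 μ) :
    ∫ z, g z * ct φ x u z = 0 := by
  obtain ⟨K, hK0, hK⟩ := hHT r hr
  obtain ⟨-, -, hctg⟩ := hCTG S μ φ hN.meas v u
  obtain ⟨-, -, hctx⟩ := hCTG S μ φ hN.meas x u
  set G : ℕ → ℂ → ℂ := fun k z => (z - a) ^ k * g z with hGdef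
  have hG : ∀ k, Bd (G k) a r (r ^ k) := bd_pow hr hg
  have hGs : ∀ k, G (k + 1) = fun z => (z - a) * G k z := by
    intro k
    funext z
    simp only [hGdef]
    ring
  have hT : ∀ k, Measurable (ht (G k)) ∧ (∀ l, ‖ht (G k) l‖ ≤ K * r ^ k) ∧
      ∀ l, ht (G (k + 1)) l = (l - a) * ht (G k) l + ∫ z, G k z := by
    intro k
    obtain ⟨-, h1, -, h2, h3⟩ := hK a (r ^ k) (G k) (hG k)
    refine ⟨h1, h2, fun l => ?_⟩
    rw [hGs k]
    exact h3 a l
  set X : ℕ → Lp ℂ 2 μ := fun k => mv φ u (ht (G k)) with hXdef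
  have hm : ∀ k, (⇑(X k) =ᵐ[μ] fun s => ht (G k) (φ s) * u s) ∧ ‖X k‖ ≤ K * r ^ k * ‖u‖ ∧
      ∀ w : Lp ℂ 2 μ, ⟪w, X k⟫_ℂ = ∫ s, conj (w s) * (ht (G k) (φ s) * u s) ∂μ := by
    intro k
    obtain ⟨h1, h2, -, h3⟩ := hMV S μ φ N hN u (ht (G k)) (K * r ^ k) (hT k).1 (by positivity)
      fun s => (hT k).2.1 _
    exact ⟨h1, h2, h3⟩
  have hin : ∀ k, ⟪v, X k⟫_ℂ = ∫ z, G k z := by
    intro k
    rw [(hm k).2.2 v, (hctg a r _ (G k) (hG k)).2]
    refine integral_congr_ae (Eventually.of_forall fun z => ?_)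
    by_cases hz : ff φ u v z = 0
    · have h1 : ct φ v u z = 1 := by
        unfold ff at hz
        exact (sub_eq_zero.1 hz).symm
      simp only [h1, mul_one]
    · have h1 : G k z = 0 := by simp only [hGdef, hg0 z hz, mul_zero]
      simp only [h1, zero_mul]
  have hstep : ∀ k, T1 N u v (X k) - a • X k = X (k + 1) := by
    intro k
    have h1 : T1 N u v (X k) = N (X k) + (∫ z, G k z) • u := by
      rw [← hin k]
      rfl
    rw [h1]
    refine Lp.ext ?_
    have e1 := Lp.coeFn_sub (N (X k) + (∫ z, G k z) • u) (a • X k)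
    have e2 := Lp.coeFn_add (N (X k)) ((∫ z, G k z) • u)
    have e3 := Lp.coeFn_smul (∫ z, G k z) u
    have e4 := Lp.coeFn_smul a (X k)
    filter_upwards [e1, e2, e3, e4, hN.eq (X k), (hm k).1, (hm (k + 1)).1] with s e1 e2 e3 e4 e5
      e6 e7
    rw [e1, Pi.sub_apply, e2, Pi.add_apply, e3, e4, Pi.smul_apply, Pi.smul_apply, e5, e7, e6,
      (hT k).2.2, smul_eq_mul, smul_eq_mul]
    ring
  have hchain : IsChain (T1 N u v) a r X := by
    refine ⟨hstep, K * ‖u‖, fun k => ?_⟩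
    calc ‖X k‖ ≤ K * r ^ k * ‖u‖ := (hm k).2.1
      _ = K * ‖u‖ * r ^ k := by ring
  have hX0 : X 0 = 0 := by
    by_contra h
    exact hch ⟨X, hchain, h⟩
  have h1 := (hm 0).2.2 x
  rw [hX0, inner_zero_right, (hctx a r _ (G 0) (hG 0)).2] at h1
  have h2 : (fun z => G 0 z * ct φ x u z) = fun z => g z * ct φ x u z := by
    funext z
    simp [hGdef]
  rw [h2] at h1
  exact h1.symm

theorem main (hHT : S_HT) (hCTG : S_CTG) (hMV : S_MV) (hTEST : S_TEST) : S_ZERO := by
  intro S _ μ _ φ N hN u v a r hr hu hno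
  by_contra hch
  apply hno
  have hfm : Measurable (ff φ u v) := by
    unfold ff
    exact measurable_const.sub (hCTG S μ φ hN.meas v u).1
  set E : Set ℂ := {z | z ∈ ball a r ∧ ff φ u v z = 0} with hEdef
  have hE : MeasurableSet E :=
    measurableSet_ball.inter (hfm (measurableSet_singleton 0))
  have hzero : ∀ x : Lp ℂ 2 μ, ∀ᵐ z : ℂ, z ∈ E → ct φ x u z = 0 := by
    intro x
    obtain ⟨hxm, -, hxg⟩ := hCTG S μ φ hN.meas x u
    set c : ℂ → ℂ := ct φ x u with hc
    set g : ℂ → ℂ := E.indicator fun z => conj (c z) / ‖c z‖ with hgdef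
    have hgm : Measurable g := by
      refine Measurable.indicator ?_ hE
      exact (Complex.continuous_conj.measurable.comp hxm).div
        (Complex.measurable_ofReal.comp hxm.norm)
    have hg : Bd g a r 1 := by
      refine ⟨hgm, zero_le_one, fun z => ?_, fun z hz => ?_⟩
      · by_cases hz : z ∈ E
        · rw [hgdef, indicator_of_mem hz, norm_div, RCLike.norm_conj, Complex.norm_real, norm_norm]
          exact div_self_le_one _
        · rw [hgdef, indicator_of_notMem hz, norm_zero]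
          exact zero_le_one
      · exact indicator_of_notMem (fun h => hz h.1) _
    have hg0 : ∀ z, ff φ u v z ≠ 0 → g z = 0 := fun z hz =>
      indicator_of_notMem (fun h => hz h.2) _
    have h1 : ∫ z, g z * c z = 0 := key hHT hCTG hMV hN hr hch hg hg0 x
    have h2 := (hxg a r 1 g hg).1
    have h3 : ∀ z, g z * c z = ((E.indicator (fun z => ‖c z‖) z : ℝ) : ℂ) := by
      intro z
      by_cases hz : z ∈ E
      · rw [hgdef, indicator_of_mem hz, indicator_of_mem hz]
        by_cases hcz : c z = 0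
        · simp [hcz]
        · have h4 : (‖c z‖ : ℂ) ≠ 0 := by
            exact_mod_cast (norm_ne_zero_iff.2 hcz)
          rw [div_mul_eq_mul_div, div_eq_iff h4, ← Complex.normSq_eq_conj_mul_self,
            Complex.normSq_eq_norm_sq]
          push_cast
          ring
      · rw [hgdef, indicator_of_notMem hz, indicator_of_notMem hz]
        simp
    simp only [h3] at h1 h2
    rw [integral_complex_ofReal] at h1
    have h5 : ∫ z, E.indicator (fun z => ‖c z‖) z = 0 := by exact_mod_cast h1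
    have h6 : Integrable (E.indicator fun z => ‖c z‖) := by
      have := h2.re
      simpa using this
    rw [integral_eq_zero_iff_of_nonneg (fun z => indicator_nonneg (fun _ _ => norm_nonneg _) z)
      h6] at h5
    filter_upwards [h5] with z hz hzE
    rw [indicator_of_mem hzE] at hz
    exact norm_eq_zero.1 hz
  obtain ⟨l, hl⟩ := hTEST S μ φ hN.meas hN.bdd u hu
  choose x hx1 hx2 hx3 using fun n : ℕ => hl (1 / (n + 1)) (by positivity)
  have hall : ∀ᵐ z : ℂ, ∀ n, z ∈ E → ct φ (x n) u z = 0 := ae_all_iff.2 fun n => hzero (x n)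
  have hne : ∀ᵐ z : ℂ, z ≠ l := by
    rw [ae_iff]
    simp
  rw [ae_restrict_iff' measurableSet_ball]
  filter_upwards [hall, hne] with z hz hzl hzb hz0
  have hzE : z ∈ E := ⟨hzb, hz0⟩
  have h1 : 0 < ‖z - l‖ := norm_pos_iff.2 (sub_ne_zero.2 hzl)
  obtain ⟨n, hn⟩ := exists_nat_one_div_lt (half_pos h1)
  refine hx2 n z ?_ (hz n hzE)
  linarith

end Pool.Agent.Y812.RO.ZERO
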